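import Mathlib
import Pool.Agent.Helper28.HN.Defs

/-!
# The derivative of a quadratic form on a line (DIFF), abstract form

`l : Fin m → I m → S` are the rows of `m` linear equations on `S ^ (m + 2)`, `q : I m → I m → S` is
(the matrix of) a quadratic form. `lyh l z` is the point with `y 1 = z * y 0` of the line, and
`qf q y y'` the polarisation. `e : T →+* S` is an evaluation and `d : T →+ S` a derivation over `e`.
-/

set_option autoImplicit false

namespace Pool.Agent.Helper82.HK

open Finset
open Pool.Agent.Helper28.HN (I)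

section line

variable {m : ℕ} {S : Type*} [CommRing S]

/-- The linear form with the coefficients `l r`. -/
def lf (l : Fin m → I m → S) (r : Fin m) (y : I m → S) : S := ∑ j, l r j * y j

/-- The matrix of the equations without the first two columns. -/
def lM (l : Fin m → I m → S) : Matrix (Fin m) (Fin m) S := fun r b => l r b.succ.succ

/-- `w` with `M w = - g` (times `det M`) on the last coordinates. -/
noncomputable def lad (l : Fin m → I m → S) (g : Fin m → S) : I m → S :=
  Fin.cons 0 (Fin.cons 0 (- ((lM l).adjugate.mulVec g)))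

/-- The point with `y 1 = 0`. -/
noncomputable def lY0 (l : Fin m → I m → S) : I m → S :=
  Fin.cons (lM l).det (Fin.cons 0 (- ((lM l).adjugate.mulVec fun r => l r 0)))

/-- The point with `y 0 = 0`. -/
noncomputable def lY1 (l : Fin m → I m → S) : I m → S :=
  Fin.cons 0 (Fin.cons (lM l).det (- ((lM l).adjugate.mulVec fun r => l r 1)))

/-- The point with `y 1 = z * y 0`. -/
noncomputable def lyh (l : Fin m → I m → S) (z : S) : I m → S := fun i => lY0 l i + z * lY1 l i

/-- The polarisation of the quadratic form. -/
def qf (q : I m → I m → S) (y y' : I m → S) : S := ∑ i, ∑ j, (q i j + q j i) * y i * y' j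

theorem mulVec_adj (M : Matrix (Fin m) (Fin m) S) (v : Fin m → S) :
    M.mulVec (M.adjugate.mulVec v) = M.det • v := by
  rw [Matrix.mulVec_mulVec, Matrix.mul_adjugate, Matrix.smul_mulVec, Matrix.one_mulVec]

theorem adj_mulVec (M : Matrix (Fin m) (Fin m) S) (v : Fin m → S) :
    M.adjugate.mulVec (M.mulVec v) = M.det • v := by
  rw [Matrix.mulVec_mulVec, Matrix.adjugate_mul, Matrix.smul_mulVec, Matrix.one_mulVec]

variable (l : Fin m → I m → S) (q : I m → I m → S)

theorem one_eq : (1 : I m) = Fin.succ 0 := rfl

theorem lY0_zero : lY0 l 0 = (lM l).det := by rw [lY0, Fin.cons_zero]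

theorem lY0_one : lY0 l 1 = 0 := by rw [one_eq, lY0, Fin.cons_succ, Fin.cons_zero]

theorem lY1_zero : lY1 l 0 = 0 := by rw [lY1, Fin.cons_zero]

theorem lY1_one : lY1 l 1 = (lM l).det := by rw [one_eq, lY1, Fin.cons_succ, Fin.cons_zero]

theorem lf_split (r : Fin m) (y : I m → S) : lf l r y = l r 0 * y 0 + l r 1 * y 1 +
    (lM l).mulVec (fun b => y b.succ.succ) r := by
  rw [lf, Fin.sum_univ_succ, Fin.sum_univ_succ]
  exact (add_assoc (G := S) _ _ _).symm

theorem lf_lY0 (r : Fin m) : lf l r (lY0 l) = 0 := by
  rw [lf_split, lY0_zero, lY0_one]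
  have h : (fun b : Fin m => lY0 l b.succ.succ) =
      - ((lM l).adjugate.mulVec fun r => l r 0) := by
    funext b
    simp only [lY0, Fin.cons_succ]
  rw [h, Matrix.mulVec_neg, mulVec_adj]
  simp only [Pi.neg_apply, Pi.smul_apply, smul_eq_mul]
  ring

theorem lf_lY1 (r : Fin m) : lf l r (lY1 l) = 0 := by
  rw [lf_split, lY1_zero, lY1_one]
  have h : (fun b : Fin m => lY1 l b.succ.succ) =
      - ((lM l).adjugate.mulVec fun r => l r 1) := by
    funext b
    simp only [lY1, Fin.cons_succ]
  rw [h, Matrix.mulVec_neg, mulVec_adj]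
  simp only [Pi.neg_apply, Pi.smul_apply, smul_eq_mul]
  ring

theorem lf_add (r : Fin m) (y y' : I m → S) (z : S) :
    lf l r (fun i => y i + z * y' i) = lf l r y + z * lf l r y' := by
  simp only [lf, mul_sum, ← sum_add_distrib]
  exact sum_congr rfl fun i _ => by ring

theorem lf_lyh (r : Fin m) (z : S) : lf l r (lyh l z) = 0 := by
  have h : lyh l z = fun i => lY0 l i + z * lY1 l i := rfl
  rw [h, lf_add, lf_lY0, lf_lY1, mul_zero, add_zero]

theorem lyh_zero (z : S) : lyh l z 0 = (lM l).det := by
  rw [lyh, lY0_zero, lY1_zero, mul_zero, add_zero]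

theorem lyh_one (z : S) : lyh l z 1 = z * (lM l).det := by
  rw [lyh, lY0_one, lY1_one, zero_add]

theorem qf_symm (y y' : I m → S) : qf q y y' = qf q y' y := by
  simp only [qf]
  rw [sum_comm]
  exact sum_congr rfl fun i _ => sum_congr rfl fun j _ => by ring

theorem qf_smul (a : S) (y y' : I m → S) : qf q y (fun i => a * y' i) = a * qf q y y' := by
  simp only [qf, mul_sum]
  exact sum_congr rfl fun i _ => sum_congr rfl fun j _ => by ring

theorem qf_add (y y' y'' : I m → S) :
    qf q y (fun i => y' i + y'' i) = qf q y y' + qf q y y'' := by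
  simp only [qf, ← sum_add_distrib]
  exact sum_congr rfl fun i _ => sum_congr rfl fun j _ => by ring

theorem det_mul_gen (w : I m → S) (g : Fin m → S) (h : ∀ r, lf l r w = - g r) (i : I m) :
    (lM l).det * w i = w 0 * lY0 l i + w 1 * lY1 l i + lad l g i := by
  refine Fin.cases ?_ (fun j => Fin.cases ?_ (fun b => ?_) j) i
  · simp only [lY0, lY1, lad, Fin.cons_zero]
    ring
  · simp only [lY0, lY1, lad, Fin.cons_succ, Fin.cons_zero]
    have e1 : (Fin.succ 0 : Fin (m + 2)) = 1 := rfl
    rw [e1]
    ring
  · simp only [lY0, lY1, lad, Fin.cons_succ, Pi.neg_apply]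
    have h1 : (lM l).mulVec (fun b : Fin m => w b.succ.succ) =
        (- w 0) • (fun r => l r 0) + (- w 1) • (fun r => l r 1) + (-1 : S) • g := by
      funext r
      have h2 := lf_split l r w
      rw [h r] at h2
      simp only [Pi.add_apply, Pi.smul_apply, smul_eq_mul]
      linear_combination -h2
    have h4 : (lM l).det * w b.succ.succ =
        (lM l).adjugate.mulVec ((lM l).mulVec (fun b : Fin m => w b.succ.succ)) b := by
      rw [adj_mulVec]
      rfl
    rw [h4, h1, Matrix.mulVec_add, Matrix.mulVec_add, Matrix.mulVec_smul, Matrix.mulVec_smul,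
      Matrix.mulVec_smul]
    simp only [Pi.add_apply, Pi.smul_apply, smul_eq_mul]
    ring

end line

/-! ## Naturality -/

section nat

variable {m : ℕ} {S T : Type*} [CommRing S] [CommRing T] (f : S →+* T) (l : Fin m → I m → S)

theorem map_lM : f.mapMatrix (lM l) = lM fun r j => f (l r j) := by
  ext r b
  simp only [RingHom.mapMatrix_apply, Matrix.map_apply, lM]

theorem map_lM_det : f (lM l).det = (lM fun r j => f (l r j)).det := by
  rw [RingHom.map_det, map_lM]

theorem map_mulVec {n : ℕ} (M : Matrix (Fin n) (Fin n) S) (v : Fin n → S) (i : Fin n) :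
    f (M.mulVec v i) = (f.mapMatrix M).mulVec (fun j => f (v j)) i := by
  simp only [Matrix.mulVec, dotProduct, map_sum, map_mul, RingHom.mapMatrix_apply,
    Matrix.map_apply]

theorem map_lY0 (i : I m) : f (lY0 l i) = lY0 (fun r j => f (l r j)) i := by
  refine Fin.cases ?_ (fun j => Fin.cases ?_ (fun b => ?_) j) i
  · simp only [lY0, Fin.cons_zero, map_lM_det]
  · simp only [lY0, Fin.cons_succ, Fin.cons_zero, map_zero]
  · simp only [lY0, Fin.cons_succ, Pi.neg_apply, map_neg, map_mulVec, RingHom.map_adjugate, map_lM]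

theorem map_lY1 (i : I m) : f (lY1 l i) = lY1 (fun r j => f (l r j)) i := by
  refine Fin.cases ?_ (fun j => Fin.cases ?_ (fun b => ?_) j) i
  · simp only [lY1, Fin.cons_zero, map_zero]
  · simp only [lY1, Fin.cons_succ, Fin.cons_zero, map_lM_det]
  · simp only [lY1, Fin.cons_succ, Pi.neg_apply, map_neg, map_mulVec, RingHom.map_adjugate, map_lM]

theorem map_lyh (z : S) (i : I m) : f (lyh l z i) = lyh (fun r j => f (l r j)) (f z) i := by
  simp only [lyh, map_add, map_mul, map_lY0, map_lY1]

theorem map_qf (q : I m → I m → S) (y y' : I m → S) : f (qf q y y') =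
    qf (fun i j => f (q i j)) (fun i => f (y i)) fun i => f (y' i) := by
  simp only [qf, map_sum, map_mul, map_add]

theorem map_lf (r : Fin m) (y : I m → S) : f (lf l r y) =
    lf (fun r j => f (l r j)) r fun i => f (y i) := by
  simp only [lf, map_sum, map_mul]

theorem map_lad (g : Fin m → S) (i : I m) :
    f (lad l g i) = lad (fun r j => f (l r j)) (fun r => f (g r)) i := by
  refine Fin.cases ?_ (fun j => Fin.cases ?_ (fun b => ?_) j) i
  · simp only [lad, Fin.cons_zero, map_zero]
  · simp only [lad, Fin.cons_succ, Fin.cons_zero, map_zero]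
  · simp only [lad, Fin.cons_succ, Pi.neg_apply, map_neg, map_mulVec, RingHom.map_adjugate, map_lM]

end nat

/-! ## Derivatives -/

section main

variable {m : ℕ} {S T : Type*} [CommRing S] [CommRing T] (e : T →+* S) (d : T →+ S)
  (hd : ∀ a b, d (a * b) = d a * e b + e a * d b)

include hd

theorem d_lf (l : Fin m → I m → T) (r : Fin m) (y : I m → T) :
    d (lf l r y) = lf (fun r j => d (l r j)) r (fun i => e (y i)) +
      lf (fun r j => e (l r j)) r (fun i => d (y i)) := by
  simp only [lf, map_sum, ← sum_add_distrib, hd]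

theorem d_qf (q : I m → I m → T) (y y' : I m → T) :
    d (qf q y y') = qf (fun i j => d (q i j)) (fun i => e (y i)) (fun i => e (y' i)) +
      qf (fun i j => e (q i j)) (fun i => d (y i)) (fun i => e (y' i)) +
      qf (fun i j => e (q i j)) (fun i => e (y i)) (fun i => d (y' i)) := by
  simp only [qf, map_sum, ← sum_add_distrib]
  refine sum_congr rfl fun i _ => sum_congr rfl fun j _ => ?_
  rw [hd, hd, map_mul, map_add, map_add]
  ring

/-- A family of vectors `y` on the lines with `y 0 = a D`, `y 1 = b D`. -/
theorem d_form (l : Fin m → I m → T) (q : I m → I m → T) (a b : T) (da : d a = 0) (db : d b = 0)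
    (y : I m → T) (hl : ∀ r, lf l r y = 0) (h0 : y 0 = a * (lM l).det)
    (h1 : y 1 = b * (lM l).det)
    (hy0 : ∀ i, e (y i) = e a * lY0 (fun r j => e (l r j)) i +
      e b * lY1 (fun r j => e (l r j)) i) :
    (lM fun r j => e (l r j)).det * d (qf q y y) =
      (lM fun r j => e (l r j)).det *
        qf (fun i j => d (q i j)) (fun i => e (y i)) (fun i => e (y i)) +
      2 * qf (fun i j => e (q i j)) (fun i => e (y i))
        (lad (fun r j => e (l r j)) fun r => lf (fun r j => d (l r j)) r fun i => e (y i)) +
      2 * d (lM l).det * qf (fun i j => e (q i j)) (fun i => e (y i)) (fun i => e (y i)) := by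
  have e4 : ∀ r, lf (fun r j => e (l r j)) r (fun i => d (y i)) =
      - lf (fun r j => d (l r j)) r fun i => e (y i) := by
    intro r
    have h2 := d_lf e d hd l r y
    rw [hl r, map_zero] at h2
    linear_combination -h2
  have e5 : ∀ i, (lM fun r j => e (l r j)).det * d (y i) =
      d (lM l).det * e (y i) +
        lad (fun r j => e (l r j)) (fun r => lf (fun r j => d (l r j)) r fun i => e (y i)) i := by
    intro i
    rw [det_mul_gen (fun r j => e (l r j)) (fun i => d (y i)) _ e4 i]
    have h2 : d (y 0) = e a * d (lM l).det := by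
      rw [h0, hd, da]
      ring
    have h3 : d (y 1) = e b * d (lM l).det := by
      rw [h1, hd, db]
      ring
    rw [h2, h3, hy0]
    ring
  have e6 : (lM fun r j => e (l r j)).det *
        qf (fun i j => e (q i j)) (fun i => e (y i)) (fun i => d (y i)) =
      d (lM l).det * qf (fun i j => e (q i j)) (fun i => e (y i)) (fun i => e (y i)) +
        qf (fun i j => e (q i j)) (fun i => e (y i))
        (lad (fun r j => e (l r j)) fun r => lf (fun r j => d (l r j)) r fun i => e (y i)) := by
    rw [← qf_smul, ← qf_smul, ← qf_add]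
    exact congrArg (qf (fun i j => e (q i j)) (fun i => e (y i))) (funext e5)
  rw [d_qf e d hd, qf_symm _ (fun i => d (y i))]
  linear_combination 2 * e6

/-- DIFF at the point `lyh l z`. -/
theorem d_yh (l : Fin m → I m → T) (q : I m → I m → T) (z : T) (dz : d z = 0) :
    (lM fun r j => e (l r j)).det * d (qf q (lyh l z) (lyh l z)) =
      (lM fun r j => e (l r j)).det *
        qf (fun i j => d (q i j)) (lyh (fun r j => e (l r j)) (e z))
          (lyh (fun r j => e (l r j)) (e z)) +
      2 * qf (fun i j => e (q i j)) (lyh (fun r j => e (l r j)) (e z))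
        (lad (fun r j => e (l r j)) fun r =>
          lf (fun r j => d (l r j)) r (lyh (fun r j => e (l r j)) (e z))) +
      2 * d (lM l).det * qf (fun i j => e (q i j)) (lyh (fun r j => e (l r j)) (e z))
        (lyh (fun r j => e (l r j)) (e z)) := by
  have d1 : d (1 : T) = 0 := by
    have h := hd 1 1
    rw [mul_one, map_one e, mul_one, one_mul] at h
    linear_combination -h
  have h := d_form e d hd l q 1 z d1 dz (lyh l z) (fun r => lf_lyh l r z)
    (by rw [lyh_zero, one_mul]) (lyh_one l z)
    (fun i => by rw [map_lyh, map_one, one_mul, lyh])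
  have h2 : (fun i => e (lyh l z i)) = lyh (fun r j => e (l r j)) (e z) :=
    funext fun i => map_lyh e l z i
  rw [h2] at h
  exact h

/-- DIFF for the leading coefficient. -/
theorem d_Y1 (l : Fin m → I m → T) (q : I m → I m → T) :
    (lM fun r j => e (l r j)).det * d (qf q (lY1 l) (lY1 l)) =
      (lM fun r j => e (l r j)).det *
        qf (fun i j => d (q i j)) (lY1 fun r j => e (l r j)) (lY1 fun r j => e (l r j)) +
      2 * qf (fun i j => e (q i j)) (lY1 fun r j => e (l r j))
        (lad (fun r j => e (l r j)) fun r =>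
          lf (fun r j => d (l r j)) r (lY1 fun r j => e (l r j))) +
      2 * d (lM l).det * qf (fun i j => e (q i j)) (lY1 fun r j => e (l r j))
        (lY1 fun r j => e (l r j)) := by
  have d1 : d (1 : T) = 0 := by
    have h := hd 1 1
    rw [mul_one, map_one e, mul_one, one_mul] at h
    linear_combination -h
  have h := d_form e d hd l q 0 1 (map_zero d) d1 (lY1 l) (fun r => lf_lY1 l r)
    (by rw [lY1_zero, zero_mul]) (by rw [lY1_one, one_mul])
    (fun i => by rw [map_lY1, map_zero, map_one, zero_mul, one_mul, zero_add])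
  have h2 : (fun i => e (lY1 l i)) = lY1 fun r j => e (l r j) :=
    funext fun i => map_lY1 e l i
  rw [h2] at h
  exact h

end main

end Pool.Agent.Helper82.HK
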