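import Pool.Agent.Helper64.HK.Lin
import Pool.Agent.Helper82.HK.DiffAbs

/-!
# `k + 1` factors: the derivative of the form on the line (DIFF), and the line in the factor `0`
-/

set_option autoImplicit false

namespace Pool.Agent.Helper82.HK

open Finset Function
open Pool.Agent.Helper28.HN (I)
open Pool.Agent.Helper64.HK

variable {k m : ℕ} {a : Fin (k + 1) → Fin (m + 1)}

/-! ## The rows of the line in the factor `j` -/

section line

variable {S : Type*} [CommRing S] (c : Ix a → S)

theorem rf_comb (j : Fin (k + 1)) (X : Fin (k + 1) → I m → S) (r : Fin m) (α β : S)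
    (v w : I m → S) : rf c j X r (fun l => α * v l + β * w l) =
      α * rf c j X r v + β * rf c j X r w :=
  Ef_comb c (fun h => Fin.succAbove_ne (a j) r h.symm) X α β v w

/-- The row as a linear map. -/
def rfL (j : Fin (k + 1)) (X : Fin (k + 1) → I m → S) (r : Fin m) : (I m → S) →ₗ[S] S where
  toFun := rf c j X r
  map_add' v w := by
    have h := rf_comb c j X r 1 1 v w
    simp only [one_mul] at h
    exact h
  map_smul' α v := by
    have h := rf_comb c j X r α 0 v v
    simp only [zero_mul, add_zero] at h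
    exact h

theorem rf_sum (j : Fin (k + 1)) (X : Fin (k + 1) → I m → S) (r : Fin m) (v : I m → S) :
    rf c j X r v = ∑ b, rf c j X r (Pi.single b 1) * v b := by
  have h := LinearMap.pi_apply_eq_sum_univ (rfL c j X r) v
  have h2 : ∀ b : I m, (fun j => if b = j then (1 : S) else 0) = Pi.single b 1 := by
    intro b
    funext j
    by_cases hb : b = j
    · subst hb
      simp
    · rw [if_neg hb, Pi.single_eq_of_ne (Ne.symm hb)]
  simp only [h2, smul_eq_mul] at h
  refine h.trans (sum_congr rfl fun b _ => ?_)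
  rw [mul_comm]
  rfl

/-- The rows in the factor `0`. -/
def rows (X : Fin (k + 1) → I m → S) (r : Fin m) (i : I m) : S := rf c 0 X r (Pi.single i 1)

theorem rf_eq_lf (X : Fin (k + 1) → I m → S) (r : Fin m) (v : I m → S) :
    rf c 0 X r v = lf (rows c X) r v := rf_sum c 0 X r v

theorem Mx_eq (X : Fin (k + 1) → I m → S) : Mx c X = lM (rows c X) := rfl

theorem Y0_eq (X : Fin (k + 1) → I m → S) : Y0 c X = lY0 (rows c X) := rfl

theorem Y1_eq (X : Fin (k + 1) → I m → S) : Y1 c X = lY1 (rows c X) := rfl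

theorem yh_eq (X : Fin (k + 1) → I m → S) (z : S) : yh c X z = lyh (rows c X) z := rfl

theorem vp_eq (X : Fin (k + 1) → I m → S) (g : Fin m → S) : vp c X g = lad (rows c X) g := rfl

theorem rf_Y0 (X : Fin (k + 1) → I m → S) (r : Fin m) : rf c 0 X r (Y0 c X) = 0 := by
  rw [rf_eq_lf, Y0_eq, lf_lY0]

theorem rf_Y1 (X : Fin (k + 1) → I m → S) (r : Fin m) : rf c 0 X r (Y1 c X) = 0 := by
  rw [rf_eq_lf, Y1_eq, lf_lY1]

theorem rf_yh (X : Fin (k + 1) → I m → S) (r : Fin m) (z : S) : rf c 0 X r (yh c X z) = 0 := by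
  rw [rf_eq_lf, yh_eq, lf_lyh]

theorem yh_zero (X : Fin (k + 1) → I m → S) (z : S) : yh c X z 0 = (Mx c X).det := by
  rw [yh_eq, lyh_zero, Mx_eq]

theorem yh_one (X : Fin (k + 1) → I m → S) (z : S) : yh c X z 1 = z * (Mx c X).det := by
  rw [yh_eq, lyh_one, Mx_eq]

theorem Y0_zero (X : Fin (k + 1) → I m → S) : Y0 c X 0 = (Mx c X).det := by
  rw [Y0_eq, lY0_zero, Mx_eq]

theorem Y0_one (X : Fin (k + 1) → I m → S) : Y0 c X 1 = 0 := by
  rw [Y0_eq, lY0_one]

theorem Y1_zero (X : Fin (k + 1) → I m → S) : Y1 c X 0 = 0 := by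
  rw [Y1_eq, lY1_zero]

theorem Y1_one (X : Fin (k + 1) → I m → S) : Y1 c X 1 = (Mx c X).det := by
  rw [Y1_eq, lY1_one, Mx_eq]

/-- `w` with `L_r w = - g r`. -/
theorem det_mul (X : Fin (k + 1) → I m → S) (w : I m → S) (g : Fin m → S)
    (h : ∀ r, rf c 0 X r w = - g r) (i : I m) :
    (Mx c X).det * w i = w 0 * Y0 c X i + w 1 * Y1 c X i + vp c X g i := by
  rw [Mx_eq, Y0_eq, Y1_eq, vp_eq]
  exact det_mul_gen (rows c X) w g (fun r => by rw [← rf_eq_lf]; exact h r) i

end line

/-! ## The chain rule -/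

section chain

variable {S T : Type*} [CommRing S] [CommRing T] (e : T →+* S) (d : T →+ S)
  (hd : ∀ a b, d (a * b) = d a * e b + e a * d b)

include hd

theorem d_one : d 1 = 0 := by
  have h := hd 1 1
  rw [mul_one, map_one e, mul_one, one_mul] at h
  linear_combination -h

theorem d_prod {ι : Type*} [DecidableEq ι] (s : Finset ι) (f : ι → T) :
    d (∏ l ∈ s, f l) = ∑ l ∈ s, d (f l) * ∏ l' ∈ s.erase l, e (f l') := by
  induction s using Finset.induction_on with
  | empty => simp [d_one e d hd]
  | insert b s hb ih =>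
    rw [prod_insert hb, hd, ih, sum_insert hb, erase_insert hb, map_prod, mul_sum]
    congr 1
    refine sum_congr rfl fun l hl => ?_
    have h : b ≠ l := fun h => hb (h ▸ hl)
    rw [erase_insert_of_ne h, prod_insert fun h => hb (mem_of_mem_erase h)]
    ring

variable (c : Ix a → T) (hc : ∀ i, d (c i) = 0)

include hc

theorem d_Mf (i : Fin (m + 1)) (U V : Fin (k + 1) → I m → T) :
    d (Mf c i U V) =
      (∑ l, Mf (fun i => e (c i)) i (update (fun l i => e (U l i)) l fun i => d (U l i))
        fun l i => e (V l i)) +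
      ∑ l : {j // a j = i}, Mf (fun i => e (c i)) i (fun l i => e (U l i))
        (update (fun l i => e (V l i)) l.1 fun i => d (V l.1 i)) := by
  have h : ∀ (p : Fin (k + 1) → I m) (q : {j // a j = i} → I m),
      d (c ⟨i, p, q⟩ * (∏ j, U j (p j)) * ∏ j : {j // a j = i}, V j.1 (q j)) =
      (∑ l, e (c ⟨i, p, q⟩) *
        (∏ j, update (fun l i => e (U l i)) l (fun i => d (U l i)) j (p j)) *
        ∏ j : {j // a j = i}, e (V j.1 (q j))) +
      ∑ l : {j // a j = i}, e (c ⟨i, p, q⟩) * (∏ j, e (U j (p j))) *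
        ∏ j : {j // a j = i},
          update (fun l i => e (V l i)) l.1 (fun i => d (V l.1 i)) j.1 (q j) := by
    intro p q
    rw [hd, hd, hc, d_prod e d hd, d_prod e d hd, zero_mul, zero_add, map_mul, map_prod, map_prod,
      mul_sum, sum_mul, mul_sum]
    congr 1
    · refine sum_congr rfl fun l _ => ?_
      rw [prod_upd]
    · refine sum_congr rfl fun l _ => ?_
      rw [prod_upd' _ l.1 l.2]
  simp only [Mf, map_sum, h]
  rw [sum_comm' (s := (univ : Finset (Fin (k + 1)))) (t := fun _ => univ) (t' := univ)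
    (s' := fun _ => univ) (by simp)]
  rw [sum_comm' (s := (univ : Finset {j // a j = i})) (t := fun _ => univ) (t' := univ)
    (s' := fun _ => univ) (by simp), ← sum_add_distrib]
  refine sum_congr rfl fun p _ => ?_
  rw [sum_comm' (s := (univ : Finset (Fin (k + 1)))) (t := fun _ => univ) (t' := univ)
    (s' := fun _ => univ) (by simp)]
  rw [sum_comm' (s := (univ : Finset {j // a j = i})) (t := fun _ => univ) (t' := univ)
    (s' := fun _ => univ) (by simp), ← sum_add_distrib]

theorem d_Ef (i : Fin (m + 1)) (X : Fin (k + 1) → I m → T) :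
    d (Ef c i X) = ∑ l, De (fun i => e (c i)) i l (fun l i => e (X l i)) fun i => d (X l i) := by
  unfold Ef
  rw [d_Mf e d hd c hc]
  simp only [De, sum_add_distrib]
  congr 1
  rw [← sum_filter]
  exact (sum_subtype _ (by simp) fun l => Mf (fun i => e (c i)) i (fun l i => e (X l i))
    (update (fun l i => e (X l i)) l fun i => d (X l i))).symm

/-- The chain rule if only the factors `0` and `j` move. -/
theorem d_Ef2 (i : Fin (m + 1)) (j : Fin (k + 1)) (hj : j ≠ 0) (X : Fin (k + 1) → I m → T)
    (hX : ∀ l, l ≠ j → ∀ i, d (X l i) = 0) (Y : I m → T) :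
    d (Ef c i (update X 0 Y)) =
      De (fun i => e (c i)) i j (update (fun l i => e (X l i)) 0 fun i => e (Y i))
        (fun i => d (X j i)) +
      De (fun i => e (c i)) i 0 (update (fun l i => e (X l i)) 0 fun i => e (Y i))
        fun i => d (Y i) := by
  rw [d_Ef e d hd c hc, map_upd]
  have h0 : ∀ l, l ≠ j → l ≠ 0 → De (fun i => e (c i)) i l
      (update (fun l i => e (X l i)) 0 fun i => e (Y i)) (fun i => d (update X 0 Y l i)) = 0 := by
    intro l hl hl0
    have h1 : (fun i => d (update X 0 Y l i)) = fun i => (0 : S) * (fun _ : I m => (0 : S)) i +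
        (0 : S) * (fun _ : I m => (0 : S)) i := by
      funext i
      rw [update_of_ne hl0, hX l hl]
      ring
    rw [h1, De_comb]
    ring
  rw [← add_sum_erase univ _ (mem_univ j), ← add_sum_erase (univ.erase j) _
    (mem_erase.2 ⟨hj.symm, mem_univ 0⟩), sum_eq_zero fun l hl => ?_, add_zero]
  · rw [update_of_ne hj, update_self]
  · exact h0 l (ne_of_mem_erase (mem_of_mem_erase hl)) (ne_of_mem_erase hl)

end chain

/-! ## The derivative of the form on the line -/

theorem update_update_self {α : Type*} (X : Fin (k + 1) → α) (v w : α) :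
    update (update X 0 v) 0 w = update X 0 w := update_idem _ _ _

section main

variable {S T : Type*} [CommRing S] [CommRing T] (e : T →+* S) (d : T →+ S)
  (hd : ∀ a b, d (a * b) = d a * e b + e a * d b) (c : Ix a → T) (hc : ∀ i, d (c i) = 0)

include hd hc

/-- A family of vectors `Y` on the lines with `Y 0 = α D`, `Y 1 = β D`. -/
theorem d_form' (j : Fin (k + 1)) (hj : j ≠ 0) (X : Fin (k + 1) → I m → T)
    (hX : ∀ l, l ≠ j → ∀ i, d (X l i) = 0) (α β : T) (hα : d α = 0) (hβ : d β = 0)
    (Y : I m → T) (hl : ∀ r, rf c 0 X r Y = 0) (h0 : Y 0 = α * (Mx c X).det)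
    (h1 : Y 1 = β * (Mx c X).det)
    (hY : ∀ i, e (Y i) = e α * Y0 (fun i => e (c i)) (fun l i => e (X l i)) i +
      e β * Y1 (fun i => e (c i)) (fun l i => e (X l i)) i) :
    (Mx (fun i => e (c i)) (fun l i => e (X l i))).det * d (Pf c 0 X Y Y) =
      2 * ((Mx (fun i => e (c i)) (fun l i => e (X l i))).det *
        De (fun i => e (c i)) (a 0) j (update (fun l i => e (X l i)) 0 fun i => e (Y i))
          (fun i => d (X j i)) +
        Pf (fun i => e (c i)) 0 (fun l i => e (X l i)) (fun i => e (Y i))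
          (vp (fun i => e (c i)) (fun l i => e (X l i)) fun r =>
            De (fun i => e (c i)) ((a 0).succAbove r) j
              (update (fun l i => e (X l i)) 0 fun i => e (Y i)) fun i => d (X j i))) +
      2 * d (Mx c X).det *
        Pf (fun i => e (c i)) 0 (fun l i => e (X l i)) (fun i => e (Y i)) fun i => e (Y i) := by
  set c' : Ix a → S := fun i => e (c i) with hc'
  set X' : Fin (k + 1) → I m → S := fun l i => e (X l i) with hX'
  set Y' : I m → S := fun i => e (Y i) with hY'
  set ξ : I m → S := fun i => d (X j i) with hξ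
  have e1 : ∀ r, rf c' 0 X' r (fun i => d (Y i)) =
      - De c' ((a 0).succAbove r) j (update X' 0 Y') ξ := by
    intro r
    have h2 := d_Ef2 e d hd c hc ((a 0).succAbove r) j hj X hX Y
    have h3 : Ef c ((a 0).succAbove r) (update X 0 Y) = 0 := hl r
    rw [h3, map_zero, De_ne (j := 0) c' (fun h => Fin.succAbove_ne (a 0) r h.symm),
      update_update_self] at h2
    have h4 : rf c' 0 X' r (fun i => d (Y i)) =
        Ef c' ((a 0).succAbove r) (update X' 0 fun i => d (Y i)) := rfl
    rw [h4]
    linear_combination -h2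
  have e2 : ∀ i, (Mx c' X').det * d (Y i) = d (Mx c X).det * Y' i +
      vp c' X' (fun r => De c' ((a 0).succAbove r) j (update X' 0 Y') ξ) i := by
    intro i
    rw [det_mul c' X' (fun i => d (Y i)) _ e1 i]
    have h2 : d (Y 0) = e α * d (Mx c X).det := by
      rw [h0, hd, hα]
      ring
    have h3 : d (Y 1) = e β * d (Mx c X).det := by
      rw [h1, hd, hβ]
      ring
    have h4 : Y' i = e α * Y0 c' X' i + e β * Y1 c' X' i := hY i
    rw [h2, h3, h4]
    ring
  have e3 : (Mx c' X').det * Pf c' 0 X' Y' (fun i => d (Y i)) =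
      d (Mx c X).det * Pf c' 0 X' Y' Y' +
      Pf c' 0 X' Y' (vp c' X' fun r => De c' ((a 0).succAbove r) j (update X' 0 Y') ξ) := by
    rw [← Pf_smul_r]
    have h2 : (fun i => (Mx c' X').det * d (Y i)) = fun i => d (Mx c X).det * Y' i +
        1 * vp c' X' (fun r => De c' ((a 0).succAbove r) j (update X' 0 Y') ξ) i := by
      funext i
      rw [e2 i, one_mul]
    rw [h2, Pf_comb_r, one_mul]
  have e4 : d (Pf c 0 X Y Y) = 2 * (De c' (a 0) j (update X' 0 Y') ξ +
      Pf c' 0 X' Y' fun i => d (Y i)) := by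
    rw [Pf_self, two_mul, map_add, ← two_mul, d_Ef2 e d hd c hc (a 0) j hj X hX Y]
    have h2 : De c' (a 0) 0 (update X' 0 Y') (fun i => d (Y i)) =
        Pf c' 0 X' Y' fun i => d (Y i) := by
      rw [De_eq, update_self]
      unfold Pf
      rw [update_update_self, update_update_self]
    rw [← h2]
  rw [e4]
  linear_combination 2 * e3

/-- DIFF: the derivative of `Fh`. -/
theorem d_Fh (j : Fin (k + 1)) (hj : j ≠ 0) (X : Fin (k + 1) → I m → T)
    (hX : ∀ l, l ≠ j → ∀ i, d (X l i) = 0) (z : T) (hz : d z = 0) :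
    (Mx (fun i => e (c i)) (fun l i => e (X l i))).det * d (Fh c X z) =
      qh (fun i => e (c i)) j (fun l i => e (X l i)) (fun i => d (X j i)) (e z) +
      2 * d (Mx c X).det * Fh (fun i => e (c i)) (fun l i => e (X l i)) (e z) := by
  have h := d_form' e d hd c hc j hj X hX 1 z (d_one e d hd) hz (yh c X z)
    (fun r => rf_yh c X r z) (by rw [yh_zero, one_mul]) (yh_one c X z)
    (fun i => by
      rw [congrFun (map_yh c e X z) i, map_one, one_mul, yh])
  rw [map_yh] at h
  exact h

/-- DIFF: the derivative of `Ah`. -/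
theorem d_Ah (j : Fin (k + 1)) (hj : j ≠ 0) (X : Fin (k + 1) → I m → T)
    (hX : ∀ l, l ≠ j → ∀ i, d (X l i) = 0) :
    (Mx (fun i => e (c i)) (fun l i => e (X l i))).det * d (Ah c X) =
      qa (fun i => e (c i)) j (fun l i => e (X l i)) (fun i => d (X j i)) +
      2 * d (Mx c X).det * Ah (fun i => e (c i)) (fun l i => e (X l i)) := by
  have h := d_form' e d hd c hc j hj X hX 0 1 (map_zero d) (d_one e d hd) (Y1 c X)
    (fun r => rf_Y1 c X r) (by rw [Y1_zero, zero_mul]) (by rw [Y1_one, one_mul])
    (fun i => by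
      rw [congrFun (map_Y1 c e X) i, map_one, map_zero, one_mul, zero_mul, zero_add])
  rw [map_Y1] at h
  exact h

end main

end Pool.Agent.Helper82.HK
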