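import Mathlib
import Pool.Agent.Helper92.GF.Basic
import Pool.Agent.Helper47.HK.Prime

/-!
# Project HK: the chart ideal of a general complete intersection is prime

With generic coefficients the chart ideal is the kernel of an endomorphism of the polynomial ring
(solve for one coefficient of every form), so it is prime.  By generic freeness the denominator
`Ap * Dp` is not a zero divisor modulo the chart ideal for general coefficients, so the chart ideal
is equal to the prime of the component which dominates the space of `t`.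
-/

set_option autoImplicit false

namespace Pool.Agent.Helper82.HK.Gen

open MvPolynomial Pool.Agent.Helper64.HK Pool.Agent.Helper77.HK Pool.Agent.Helper47.HK
open Pool.Agent.Helper28.HN (I aff)

section linear

variable {k m : ℕ} {a : Fin (k + 1) → Fin (m + 1)} {S : Type*} [CommRing S]

theorem Mf_subc (c c' : Ix a → S) (i : Fin (m + 1)) (U V : Fin (k + 1) → I m → S) :
    Mf (fun e => c e - c' e) i U V = Mf c i U V - Mf c' i U V := by
  simp only [Mf, sub_mul, Finset.sum_sub_distrib]

/-- Coefficients with support at the first coefficient of every form. -/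
def sp0 (w : Fin (m + 1) → S) (e : Ix a) : S := if e.2 = (0, 0) then w e.1 else 0

theorem Mf_sp0 (w : Fin (m + 1) → S) (i : Fin (m + 1)) (U V : Fin (k + 1) → I m → S) :
    Mf (a := a) (sp0 w) i U V = w i * (∏ j, U j 0) * ∏ j : {j // a j = i}, V j.1 0 := by
  unfold Mf
  rw [Finset.sum_eq_single 0]
  · rw [Finset.sum_eq_single 0]
    · simp [sp0]
    · intro q _ hq
      simp [sp0, hq]
    · simp
  · intro p _ hp
    refine Finset.sum_eq_zero fun q _ => ?_
    simp [sp0, hp]
  · simp

end linear

section generic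

variable {k m : ℕ} (a : Fin (k + 1) → Fin (m + 1))

/-- Polynomials in the affine coordinates. -/
abbrev Pl (k m : ℕ) (K : Type*) [CommRing K] :=
  MvPolynomial ((Fin k × Fin (m + 1)) ⊕ Fin (m + 1)) K

/-- The ring of the coefficients. -/
abbrev Rg := MvPolynomial (Ix a) ℚ

/-- The point of the chart. -/
noncomputable def xx (k m : ℕ) (K : Type*) [CommRing K] : Fin (k + 1) → I m → Pl k m K :=
  pc (fun p => (X (.inl p) : MvPolynomial ((Fin k × Fin (m + 1)) ⊕ Fin (m + 1)) K))
    fun i => X (.inr i)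

theorem xx_zero (K : Type*) [CommRing K] (j : Fin (k + 1)) : xx k m K j 0 = 1 := by
  refine Fin.cases ?_ (fun l => ?_) j
  · rfl
  · rfl

/-- The generic coefficients. -/
noncomputable def gc : Ix a → Rg a := X

/-- The generic forms at the point of the chart. -/
noncomputable def gf (i : Fin (m + 1)) : Pl k m (Rg a) :=
  Ef (fun e => C (gc a e)) i (xx k m (Rg a))

/-- The solution for the first coefficient of every form. -/
noncomputable def cs (e : Ix a) : Pl k m (Rg a) := C (gc a e) - sp0 (gf a) e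

theorem Ef_cs (i : Fin (m + 1)) : Ef (cs a) i (xx k m (Rg a)) = 0 := by
  unfold Ef cs
  rw [Mf_subc, Mf_sp0]
  simp only [xx_zero, Finset.prod_const_one, mul_one]
  exact sub_self _

/-- The endomorphism which solves for the first coefficients. -/
noncomputable def psi : Pl k m (Rg a) →+* Pl k m (Rg a) :=
  eval₂Hom (aeval (cs a) : MvPolynomial (Ix a) ℚ →ₐ[ℚ] Pl k m (Rg a)).toRingHom X

theorem psi_C (e : Ix a) : psi a (C (gc a e)) = cs a e := by
  rw [psi, coe_eval₂Hom, eval₂_C]
  exact aeval_X _ _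

theorem psi_X (i : (Fin k × Fin (m + 1)) ⊕ Fin (m + 1)) : psi a (X i) = X i := by
  rw [psi, coe_eval₂Hom, eval₂_X]

theorem psi_xx : (fun l i => psi a (xx k m (Rg a) l i)) = xx k m (Rg a) := by
  unfold xx
  rw [map_pc]
  simp only [psi_X]

theorem chart_eq (K : Type*) [CommRing K] (c : Ix a → K) : chartIdeal c =
    Ideal.span (Set.range fun i : Fin (m + 1) => Ef (fun e => C (c e)) i (xx k m K)) := rfl

theorem gf_mem (i : Fin (m + 1)) : gf a i ∈ chartIdeal (gc a) := by
  rw [chart_eq]
  exact Ideal.subset_span ⟨i, rfl⟩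

theorem le_ker : chartIdeal (gc a) ≤ RingHom.ker (psi a) := by
  rw [chart_eq, Ideal.span_le]
  rintro F ⟨i, rfl⟩
  show psi a _ = 0
  rw [map_Ef, psi_xx]
  simp only [psi_C]
  exact Ef_cs a i

theorem mk_cs (e : Ix a) : Ideal.Quotient.mk (chartIdeal (gc a)) (cs a e) =
    Ideal.Quotient.mk (chartIdeal (gc a)) (C (gc a e)) := by
  rw [Ideal.Quotient.eq]
  have h : cs a e - C (gc a e) = - sp0 (gf a) e := by
    unfold cs
    ring
  rw [h]
  refine (chartIdeal (gc a)).neg_mem ?_
  unfold sp0
  split_ifs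
  · exact gf_mem a _
  · exact Ideal.zero_mem _

theorem mk_psi (F : Pl k m (Rg a)) : Ideal.Quotient.mk (chartIdeal (gc a)) (psi a F) =
    Ideal.Quotient.mk (chartIdeal (gc a)) F := by
  have h : (Ideal.Quotient.mk (chartIdeal (gc a))).comp (psi a) =
      Ideal.Quotient.mk (chartIdeal (gc a)) := by
    apply MvPolynomial.ringHom_ext'
    · apply MvPolynomial.ringHom_ext
      · intro b
        have e1 : psi a (C (C b)) = C (C b) := by
          rw [psi, coe_eval₂Hom, eval₂_C]
          exact algHom_C (aeval (cs a) : MvPolynomial (Ix a) ℚ →ₐ[ℚ] Pl k m (Rg a)) b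
        simp only [RingHom.comp_apply, e1]
      · intro e
        have e1 := mk_cs a e
        rw [← psi_C] at e1
        exact e1
    · intro i
      simp only [RingHom.comp_apply, psi_X]
  exact DFunLike.congr_fun h F

theorem ker_psi : RingHom.ker (psi a) = chartIdeal (gc a) := by
  refine le_antisymm (fun F hF => ?_) (le_ker a)
  rw [← Ideal.Quotient.eq_zero_iff_mem, ← mk_psi, (RingHom.mem_ker).mp hF, map_zero]

theorem prime_gc : (chartIdeal (gc a)).IsPrime := by
  rw [← ker_psi]
  exact RingHom.ker_isPrime _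

end generic

section special

variable {k m : ℕ} {a : Fin (k + 1) → Fin (m + 1)}

theorem map_xx {K K' : Type*} [CommRing K] [CommRing K'] (φ : K →+* K') :
    (fun l i => MvPolynomial.map φ (xx k m K l i)) = xx k m K' := by
  unfold xx
  rw [map_pc]
  simp only [map_X]

theorem map_chartIdeal {K K' : Type*} [CommRing K] [CommRing K'] (φ : K →+* K') (c : Ix a → K) :
    (chartIdeal c).map (MvPolynomial.map φ) = chartIdeal fun e => φ (c e) := by
  rw [chart_eq, chart_eq, Ideal.map_span, ← Set.range_comp]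
  congr 2
  funext i
  rw [Function.comp_apply, map_Ef, map_xx]
  simp only [map_C]

theorem map_ADp {K K' : Type*} [CommRing K] [CommRing K'] (φ : K →+* K') (c : Ix a → K) :
    MvPolynomial.map φ (Ap c * Dp c) = Ap (fun e => φ (c e)) * Dp (fun e => φ (c e)) := by
  rw [map_mul, map_Ap, map_Dp]

theorem two_ne {K : Type*} [Field K] {c : Ix a → K} (hA : Ap c ≠ 0) : (2 : K) ≠ 0 := by
  intro h
  apply hA
  have h2 : (2 : MvPolynomial (Fin k × Fin (m + 1)) K) = 0 := by
    have e : (2 : MvPolynomial (Fin k × Fin (m + 1)) K) = C 2 := by rw [map_ofNat]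
    rw [e, h, C_0]
  rw [Ap, Ah, Pf_self, h2, zero_mul]

/-- For general coefficients the denominator is not a zero divisor modulo the chart ideal. -/
theorem chart_nzd (hex : ∃ c : Ix a → ℚ, NS c ∧ Dp c ≠ 0) :
    ∃ Δ : MvPolynomial (Ix a) ℚ, Δ ≠ 0 ∧ ∀ (K : Type) [Field K] [Algebra ℚ K] (c : Ix a → K),
      aeval c Δ ≠ 0 → ∀ F : MvPolynomial ((Fin k × Fin (m + 1)) ⊕ Fin (m + 1)) K,
        rename Sum.inl (Ap c * Dp c) * F ∈ chartIdeal c → F ∈ chartIdeal c := by
  obtain ⟨c1, hns, hD⟩ := hex
  have hprime := prime_gc a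
  have hden : (rename Sum.inl (Ap (gc a) * Dp (gc a)) : Pl k m (Rg a)) ∉ chartIdeal (gc a) := by
    intro h
    have h1 := Ideal.mem_map_of_mem (MvPolynomial.map
      ((aeval c1 : MvPolynomial (Ix a) ℚ →ₐ[ℚ] ℚ) : MvPolynomial (Ix a) ℚ →+* ℚ)) h
    have e1 : (fun e => ((aeval c1 : MvPolynomial (Ix a) ℚ →ₐ[ℚ] ℚ) :
        MvPolynomial (Ix a) ℚ →+* ℚ) (gc a e)) = c1 := by
      funext e
      exact aeval_X c1 e
    rw [map_chartIdeal, MvPolynomial.map_rename, map_ADp, e1] at h1
    have hA : Ap c1 ≠ 0 := NS.Ap_ne hns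
    obtain ⟨P, hP, hle, hdom⟩ := exists_dom hA hD (by norm_num)
    exact mul_ne_zero hA hD (hdom _ (hle h1))
  obtain ⟨Δ, hΔ, H⟩ := Pool.Agent.Helper92.GF.exists_nzd.{0, 0, 0} (chartIdeal (gc a))
    (rename Sum.inl (Ap (gc a) * Dp (gc a))) fun F hF =>
      (hprime.mem_or_mem hF).resolve_left hden
  refine ⟨Δ, hΔ, fun K _ _ c hc F hF => ?_⟩
  have e1 : (fun e => ((aeval c : MvPolynomial (Ix a) ℚ →ₐ[ℚ] K) :
      MvPolynomial (Ix a) ℚ →+* K) (gc a e)) = c := by
    funext e
    exact aeval_X c e
  have h1 := H K ((aeval c : MvPolynomial (Ix a) ℚ →ₐ[ℚ] K) : MvPolynomial (Ix a) ℚ →+* K) hc F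
  rw [map_chartIdeal, MvPolynomial.map_rename, map_ADp, e1] at h1
  exact h1 hF

/-- If the denominator is not a zero divisor, the chart ideal is the prime of the component which
dominates the space of `t`. -/
theorem chart_eq_dom {K : Type} [Field K] {c : Ix a → K} (hns : NS c) (hD : Dp c ≠ 0)
    (hnz : ∀ F : MvPolynomial ((Fin k × Fin (m + 1)) ⊕ Fin (m + 1)) K,
      rename Sum.inl (Ap c * Dp c) * F ∈ chartIdeal c → F ∈ chartIdeal c) :
    (chartIdeal c).IsPrime ∧ Dom (chartIdeal c) := by
  have hA : Ap c ≠ 0 := NS.Ap_ne hns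
  obtain ⟨P, hP, hle, hdom⟩ := exists_dom hA hD (two_ne hA)
  have heq : chartIdeal c = P := by
    refine le_antisymm hle fun F hF => ?_
    obtain ⟨n, hn⟩ := vanish_of_mem hns hle hdom hF
    have h1 := hn _ _ _ (onX_q (chartIdeal c) le_rfl)
    rw [aeval_q, ← map_mul, aeval_qx, ← map_pow, ← map_mul, Ideal.Quotient.eq_zero_iff_mem] at h1
    clear hn
    induction n with
    | zero => rwa [pow_zero, one_mul] at h1
    | succ n ih =>
      apply ih
      apply hnz
      rw [← mul_assoc, ← pow_succ']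
      exact h1
  rw [heq]
  exact ⟨hP, hdom⟩

end special

end Pool.Agent.Helper82.HK.Gen
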