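import Mathlib
import Pool.Agent.Helper76.HK.Good
import Pool.Agent.Helper57.HK.Bas

/-!
# Project HK: the numbers of the first factor, type 1

`V = ∏_(b = 1 .. m + 2) (X - b)`.
-/

set_option autoImplicit false

namespace Pool.Agent.Helper82.HK.HeadOne

open Pool.Agent.Helper76.HK Polynomial Finset

variable (m : ℕ)

/-- The letters. -/
def zl (b : Option (Fin (m + 1))) : ℚ := b.elim ((m : ℚ) + 2) fun i => (i : ℕ) + 1

/-- The polynomial with the roots `1, .., m + 2`. -/
noncomputable def V : ℚ[X] := ∏ b, (X - C (zl m b))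

theorem card_univ' : #(univ : Finset (Option (Fin (m + 1)))) = m + 2 := by
  simp

theorem V_monic : (V m).Monic := monic_prod_X_sub_C _ _

theorem V_deg : (V m).natDegree = m + 2 := by
  rw [V, natDegree_finsetProd_X_sub_C_eq_card, card_univ']

theorem V_top : (V m).coeff (m + 2) = 1 := by
  have h := (V_monic m).coeff_natDegree
  rwa [V_deg] at h

theorem V_next : (V m).coeff (m + 1) = - ∑ b, zl m b := by
  have h := prod_X_sub_C_coeff_card_pred univ (zl m) (by rw [card_univ']; omega)
  rw [card_univ'] at h
  exact h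

theorem zl_pos (b : Option (Fin (m + 1))) : 0 < zl m b := by
  cases b with
  | none => simp only [zl, Option.elim_none]; positivity
  | some i => simp only [zl, Option.elim_some]; positivity

theorem zl_inj : Function.Injective (zl m) := by
  intro b b' h
  cases b with
  | none =>
    cases b' with
    | none => rfl
    | some i =>
      exfalso
      simp only [zl, Option.elim_none, Option.elim_some] at h
      have hi : ((i : ℕ) : ℚ) < m + 1 := by exact_mod_cast i.2
      linarith
  | some i =>
    cases b' with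
    | none =>
      exfalso
      simp only [zl, Option.elim_none, Option.elim_some] at h
      have hi : ((i : ℕ) : ℚ) < m + 1 := by exact_mod_cast i.2
      linarith
    | some i' =>
      simp only [zl, Option.elim_some] at h
      have h1 : ((i : ℕ) : ℚ) = (i' : ℕ) := by linarith
      have h2 : (i : ℕ) = i' := by exact_mod_cast h1
      rw [Fin.ext h2]

/-- Two letters are smaller than the sum of all letters. -/
theorem two_lt (hm : 2 ≤ m) {b b' : Option (Fin (m + 1))} (hb : b ≠ b') :
    zl m b + zl m b' < ∑ b, zl m b := by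
  have h1 : ∑ c ∈ ({b, b'} : Finset (Option (Fin (m + 1)))), zl m c = zl m b + zl m b' :=
    sum_pair hb
  rw [← h1]
  obtain ⟨c, hc⟩ : ∃ c, c ∉ ({b, b'} : Finset (Option (Fin (m + 1)))) := by
    by_contra h
    push Not at h
    have h2 : (univ : Finset (Option (Fin (m + 1)))) ⊆ {b, b'} := fun c _ => h c
    have h3 := card_le_card h2
    have h4 : #({b, b'} : Finset (Option (Fin (m + 1)))) ≤ 2 := card_le_two
    rw [card_univ'] at h3
    omega
  exact sum_lt_sum_of_subset (subset_univ _) (mem_univ c) hc (zl_pos m c) fun j _ _ =>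
    (zl_pos m j).le

theorem one_lt (hm : 2 ≤ m) (b : Option (Fin (m + 1))) : zl m (some 0) + zl m b < ∑ b, zl m b := by
  by_cases hb : some 0 = b
  · subst hb
    have h1 := two_lt m hm (b := some 0) (b' := none) (by simp)
    have h2 : zl m (some 0) = 1 := by simp [zl]
    have h3 : zl m none = m + 2 := by simp [zl]
    have h4 : (0 : ℚ) ≤ m := by positivity
    linarith
  · exact two_lt m hm hb

theorem sum_V (w : ℚ) : ∑ l : Fin (m + 1), (V m).coeff (m - l) * w ^ (m - (l : ℕ)) =
    (V m).eval w - w ^ (m + 2) - (V m).coeff (m + 1) * w ^ (m + 1) := by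
  have h1 : ∑ l : Fin (m + 1), (V m).coeff (m - l) * w ^ (m - (l : ℕ)) =
      ∑ j ∈ range (m + 1), (V m).coeff j * w ^ j := by
    rw [Fin.sum_univ_eq_sum_range (fun l => (V m).coeff (m - l) * w ^ (m - l)),
      ← sum_range_reflect]
    refine sum_congr rfl fun j hj => ?_
    have h := mem_range.1 hj
    have h2 : m - (m + 1 - 1 - j) = j := by omega
    rw [h2]
  rw [h1, eval_eq_sum_range, V_deg, sum_range_succ _ (m + 2), sum_range_succ _ (m + 1), V_top]
  ring

theorem sum_VX : ∑ l : Fin (m + 1), C ((V m).coeff (m - l)) * (X : ℚ[X]) ^ (m - (l : ℕ)) =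
    V m - X ^ (m + 2) - C ((V m).coeff (m + 1)) * X ^ (m + 1) := by
  have h1 : ∑ l : Fin (m + 1), C ((V m).coeff (m - l)) * (X : ℚ[X]) ^ (m - (l : ℕ)) =
      ∑ j ∈ range (m + 1), C ((V m).coeff j) * X ^ j := by
    rw [Fin.sum_univ_eq_sum_range (fun l => C ((V m).coeff (m - l)) * (X : ℚ[X]) ^ (m - l)),
      ← sum_range_reflect]
    refine sum_congr rfl fun j hj => ?_
    have h := mem_range.1 hj
    have h2 : m - (m + 1 - 1 - j) = j := by omega
    rw [h2]
  have h2 := (V m).as_sum_range_C_mul_X_pow
  rw [V_deg, sum_range_succ, sum_range_succ _ (m + 1), V_top, C_1] at h2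
  rw [h1]
  linear_combination -h2

/-- The coefficients. -/
noncomputable def fc : Fin 3 → Fin (m + 1) → ℚ :=
  ![fun l => (V m).coeff (m - l), fun l => if l = 0 then (V m).coeff (m + 1) else 0,
    fun l => if l = 0 then 1 else 0]

theorem V_root (b : Option (Fin (m + 1))) : (V m).eval (zl m b) = 0 := by
  rw [V, eval_prod]
  exact prod_eq_zero (mem_univ b) (by simp)

theorem V_zero : (V m).coeff 0 ≠ 0 := by
  rw [coeff_zero_eq_eval_zero, V, eval_prod, prod_ne_zero_iff]
  intro b _
  simpa using (zl_pos m b).ne'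

theorem head1 {m : ℕ} (hm : 2 ≤ m) : ∃ H : Head m, H.typ = none := by
  have hl : (⟨m, by omega⟩ : Fin (m + 1)) = Fin.last m := rfl
  have z1 : zl m (some 0) = 1 := by simp [zl]
  refine ⟨{
    typ := none
    ep := fun l => m - l
    dd := fun _ => 1
    f := fc m
    h := ⟨1, by omega⟩
    iA := 0
    iC := Fin.last m
    z := zl m
    ρ := fun b => - zl m b - (V m).coeff (m + 1)
    κ := fun b => zl m b ^ m
    μ := 1
    hl := by simp
    hs := fun s => by
      have h := s.2
      simp only [Fin.val_castSucc, Fin.val_succ]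
      show m - (s : ℕ) = m - (s + 1) + 1
      omega
    hdd := fun s => by simp
    hf2 := fun i h => by simp at h
    inj := zl_inj m
    ne0 := fun b => (zl_pos m b).ne'
    z1 := z1
    κ0 := fun b => pow_ne_zero _ (zl_pos m b).ne'
    μ0 := one_ne_zero
    phi := fun b x => ?_
    psi := ?_
    hρ0 := ?_
    hρ1 := fun b => ?_
    hρ := fun b b' hb => ?_
    hρρ := fun b hb h => ?_
    bas := ?_
    hAC := ?_
    hhA := ?_
    hhC := ?_
    A2 := by simp [fc]
    C2 := ?_
    C1 := ?_
    C0 := ?_ }, rfl⟩
  · have h := sum_V m (zl m b)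
    rw [V_root] at h
    rw [Fin.sum_univ_three]
    have e0 : ∑ l, fc m 0 l * zl m b ^ (m - (l : ℕ)) =
        ∑ l : Fin (m + 1), (V m).coeff (m - l) * zl m b ^ (m - (l : ℕ)) := rfl
    have e1 : ∑ l, fc m 1 l * zl m b ^ (m - (l : ℕ)) = (V m).coeff (m + 1) * zl m b ^ m := by
      rw [sum_eq_single 0]
      · simp [fc]
      · intro l _ hl
        simp [fc, hl]
      · simp
    have e2 : ∑ l, fc m 2 l * zl m b ^ (m - (l : ℕ)) = zl m b ^ m := by
      rw [sum_eq_single 0]
      · simp [fc]
      · intro l _ hl
        simp [fc, hl]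
      · simp
    rw [e0, e1, e2, h]
    simp only [Fin.val_zero, Fin.val_one, Fin.val_two, pow_zero, pow_one]
    ring
  · have h := sum_VX m
    rw [Fin.sum_univ_three]
    have e0 : ∑ l, C (fc m 0 l) * (X : ℚ[X]) ^ (m - (l : ℕ)) =
        ∑ l : Fin (m + 1), C ((V m).coeff (m - l)) * (X : ℚ[X]) ^ (m - (l : ℕ)) := rfl
    have e1 : ∑ l, C (fc m 1 l) * (X : ℚ[X]) ^ (m - (l : ℕ)) =
        C ((V m).coeff (m + 1)) * X ^ m := by
      rw [sum_eq_single 0]
      · simp [fc]
      · intro l _ hl
        simp [fc, hl]
      · simp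
    have e2 : ∑ l, C (fc m 2 l) * (X : ℚ[X]) ^ (m - (l : ℕ)) = X ^ m := by
      rw [sum_eq_single 0]
      · simp [fc]
      · intro l _ hl
        simp [fc, hl]
      · simp
    rw [e0, e1, e2, h, C_1, one_mul]
    simp only [Fin.val_zero, Fin.val_one, Fin.val_two, pow_zero, pow_one]
    rw [V]
    ring
  · have h := one_lt m hm none
    have h3 : zl m none = m + 2 := by simp [zl]
    have h4 : (0 : ℚ) ≤ m := by positivity
    have h5 : 0 < zl m none := zl_pos m none
    show - zl m (some 0) - (V m).coeff (m + 1) ≠ 0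
    rw [V_next]
    intro h6
    linarith
  · have h := one_lt m hm b
    show - zl m (some 0) - (V m).coeff (m + 1) ≠ zl m b
    rw [V_next]
    intro h6
    linarith
  · have h := two_lt m hm hb
    show zl m b' ≠ - zl m b - (V m).coeff (m + 1)
    rw [V_next]
    intro h6
    linarith
  · have h1 : zl m b = zl m (some 0) := by
      have h2 : - zl m b - (V m).coeff (m + 1) = - zl m (some 0) - (V m).coeff (m + 1) := h
      linarith
    exact hb (zl_inj m h1)
  · refine Pool.Agent.Helper57.HK.det_pow_ne_zero (fun b => zl m (some b)) (fun b => zl_pos m _)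
      (fun b b' h => ?_) (fun l : Fin (m + 1) => m - (l : ℕ)) (fun l l' h => ?_) fun l => ?_
    · exact Option.some_injective _ (zl_inj m h)
    · have h1 := l.2
      have h2 := l'.2
      simp only at h
      exact Fin.ext (by omega)
    · show m - (l : ℕ) ≤ m + 1
      omega
  · intro h
    have h1 := congrArg Fin.val h
    simp only [Fin.val_zero, Fin.val_last] at h1
    omega
  · intro h
    have h1 := congrArg Fin.val h
    simp at h1
  · intro h
    have h1 := congrArg Fin.val h
    simp only [Fin.val_last] at h1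
    omega
  · have h : Fin.last m ≠ 0 := by
      intro h
      have h1 := congrArg Fin.val h
      simp only [Fin.val_zero, Fin.val_last] at h1
      omega
    simp [fc, h]
  · have h : Fin.last m ≠ 0 := by
      intro h
      have h1 := congrArg Fin.val h
      simp only [Fin.val_zero, Fin.val_last] at h1
      omega
    simp [fc, h]
  · have h : fc m 0 (Fin.last m) = (V m).coeff 0 := by
      simp [fc]
    rw [h]
    exact V_zero m

end Pool.Agent.Helper82.HK.HeadOne
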