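import Pool.Agent.Helper82.HK.Diff
import Pool.Agent.Helper24.HK.Cfg

/-!
# Project HK: the piece DIFF
-/

set_option autoImplicit false

namespace Pool.Agent.Helper82.HK

open Pool.Agent.Helper28.HN (I)
open Pool.Agent.Helper64.HK

/-- The derivative at `0`. -/
noncomputable def dvh (S : Type*) [CommRing S] : Polynomial S →+ S where
  toFun P := P.derivative.eval 0
  map_zero' := by simp
  map_add' P Q := by simp

theorem dvh_mul {S : Type*} [CommRing S] (P Q : Polynomial S) :
    dvh S (P * Q) = dvh S P * Polynomial.evalRingHom 0 Q + Polynomial.evalRingHom 0 P * dvh S Q := by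
  simp [dvh, Polynomial.derivative_mul]

theorem diff_F {k m : ℕ} {a : Fin (k + 1) → Fin (m + 1)} {S : Type*} [CommRing S] (c : Ix a → S)
    (j : Fin k) (X : Fin (k + 1) → I m → S) (ξ : I m → S) :
    ∃ d : S, (∀ z, (Mx c X).det * ((Fh (fun e => Polynomial.C (c e))
      (fun l i => Polynomial.C (X l i) + if l = j.succ then Polynomial.X * Polynomial.C (ξ i) else 0)
        (Polynomial.C z)).derivative.eval 0) = qh c j.succ X ξ z + 2 * d * Fh c X z) ∧
    (Mx c X).det * ((Ah (fun e => Polynomial.C (c e))
      (fun l i => Polynomial.C (X l i) +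
        if l = j.succ then Polynomial.X * Polynomial.C (ξ i) else 0)).derivative.eval 0) =
      qa c j.succ X ξ + 2 * d * Ah c X := by
  set XT : Fin (k + 1) → I m → Polynomial S := fun l i => Polynomial.C (X l i) +
    if l = j.succ then Polynomial.X * Polynomial.C (ξ i) else 0 with hXT
  have hj : j.succ ≠ 0 := Fin.succ_ne_zero j
  have hc : ∀ i, dvh S (Polynomial.C (c i)) = 0 := fun i => by simp [dvh]
  have hX : ∀ l, l ≠ j.succ → ∀ i, dvh S (XT l i) = 0 := by
    intro l hl i
    simp [hXT, hl, dvh]
  have e1 : (fun l i => Polynomial.evalRingHom (0 : S) (XT l i)) = X := by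
    funext l i
    by_cases h : l = j.succ
    · simp [hXT, h]
    · simp [hXT, h]
  have e2 : (fun i => dvh S (XT j.succ i)) = ξ := by
    funext i
    simp [hXT, dvh, Polynomial.derivative_mul]
  have e3 : (fun i => Polynomial.evalRingHom (0 : S) (Polynomial.C (c i))) = c := by
    funext i
    simp
  refine ⟨dvh S (Mx (fun e => Polynomial.C (c e)) XT).det, fun z => ?_, ?_⟩
  · have h := d_Fh (Polynomial.evalRingHom (0 : S)) (dvh S) dvh_mul (fun e => Polynomial.C (c e)) hc
      j.succ hj XT hX (Polynomial.C z) (by simp [dvh])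
    rw [e1, e2, e3] at h
    have e4 : Polynomial.evalRingHom (0 : S) (Polynomial.C z) = z := by simp
    rw [e4] at h
    exact h
  · have h := d_Ah (Polynomial.evalRingHom (0 : S)) (dvh S) dvh_mul (fun e => Polynomial.C (c e)) hc
      j.succ hj XT hX
    rw [e1, e2, e3] at h
    exact h

end Pool.Agent.Helper82.HK
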